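import Pool.Agent.Y714.KE.Bas

set_option autoImplicit false
set_option linter.unusedSectionVars false
set_option linter.unusedVariables false

/-! Etale algebras: continuity of the unit coordinates and of the sizes; the regions are open and
bounded (adapted from `Y455/KF/Ccc.lean`). -/

namespace Pool.Agent.Y37.KE

open NumberField FractionalIdeal Module Finset ComplexConjugate MeasureTheory Filter Topology
open Pool.Agent.Y714.KF (FI sp ct nm pm ext br gl ubas qf bk el sg bf)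
open Pool.Agent.Y714.KE
open scoped nonZeroDivisors

variable {s : Type} [Fintype s] [DecidableEq s] {K : s → Type} [∀ i, Field (K i)]
  [∀ i, NumberField (K i)]

/-- the set where all brackets are nonzero -/
def UU (b : Bs K) : Set (Ix K ⊕ Ix K → ℝ) :=
  {u | ∀ e f : Em K, e ≠ f → br (rw2 b u e) (rw2 b u f) ≠ 0}

theorem UU_open (b : Bs K) : IsOpen (UU b) := by
  classical
  have h : UU b = ⋂ e : Em K, ⋂ f : Em K,
      {u | e ≠ f → br (rw2 b u e) (rw2 b u f) ≠ 0} := by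
    ext u
    simp [UU]
  rw [h]
  refine isOpen_iInter_of_finite fun e => isOpen_iInter_of_finite fun f => ?_
  by_cases hst : e = f
  · simp [hst]
  · have h1 : Continuous fun u => br (rw2 b u e) (rw2 b u f) := by
      have h2 := continuous_rw2 b
      have h3 : Continuous fun u => rw2 b u e := (continuous_apply e).comp h2
      have h4 : Continuous fun u => rw2 b u f := (continuous_apply f).comp h2
      exact Pool.Agent.Y714.KF.continuous_br.comp (h3.prodMk h4)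
    have h5 : {u : Ix K ⊕ Ix K → ℝ | e ≠ f → br (rw2 b u e) (rw2 b u f) ≠ 0}
        = {u | br (rw2 b u e) (rw2 b u f) ≠ 0} := by
      ext u
      simp [hst]
    rw [h5]
    exact isOpen_ne_fun h1 continuous_const

theorem UU_pm (hn : 3 ≤ dg K) (b : Bs K) {u : Ix K ⊕ Ix K → ℝ} (hu : u ∈ UU b) :
    0 < pm (rw2 b u) :=
  Pool.Agent.Y714.KF.pm_pos (by rw [card_Em]; omega) fun e f h => hu e f h

theorem UU_ext (hodd : Odd (dg K)) (hn : 3 ≤ dg K) (b : Bs K)
    {u : Ix K ⊕ Ix K → ℝ} (hu : u ∈ UU b) (e : Em K) : 0 < pm (ext (rw2 b u) e) :=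
  pm_ext_pos hodd (UU_pm hn b hu) e

theorem cont_LG (hodd : Odd (dg K)) (hn : 3 ≤ dg K) (b : Bs K)
    (e : Em K) : ContinuousOn (fun u => LG (rw2 b u) e) (UU b) := by
  unfold LG
  refine continuousOn_const.mul (ContinuousOn.sub ?_ ?_)
  · refine ContinuousOn.log (((Pool.Agent.Y714.KF.continuous_ext e).comp
      (continuous_rw2 b)).continuousOn) ?_
    intro u hu
    exact (UU_ext hodd hn b hu e).ne'
  · refine ContinuousOn.log ((Pool.Agent.Y714.KF.continuous_pm.comp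
      (continuous_rw2 b)).continuousOn) ?_
    intro u hu
    exact (UU_pm hn b hu).ne'

theorem cont_mL (hodd : Odd (dg K)) (hn : 3 ≤ dg K) (b : Bs K) (i : s) :
    ContinuousOn (fun u => mL (rw2 b u) i) (UU b) := by
  unfold mL
  exact (continuousOn_finsetSum _ fun σ _ => cont_LG hodd hn b ⟨i, σ⟩).div_const _

theorem cont_cc (hodd : Odd (dg K)) (hn : 3 ≤ dg K) (b : Bs K)
    (j : Ux K) : ContinuousOn (fun u => cc (rw2 b u) j) (UU b) := by
  classical
  have h2 : ContinuousOn (fun u => fun w : {w : InfinitePlace (K j.1) //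
      w ≠ NumberField.Units.dirichletUnitTheorem.w₀} =>
      (InfinitePlace.mult w.1 : ℝ) * (LG (rw2 b u) ⟨j.1, w.1.embedding⟩ - mL (rw2 b u) j.1))
      (UU b) := by
    refine continuousOn_pi.2 fun w => ?_
    exact continuousOn_const.mul ((cont_LG hodd hn b _).sub (cont_mL hodd hn b j.1))
  have h3 : Continuous ((ubas (K j.1)).coord j.2) := LinearMap.continuous_of_finiteDimensional _
  exact h3.comp_continuousOn h2

theorem cont_ui (hodd : Odd (dg K)) (hn : 3 ≤ dg K) (b : Bs K)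
    (i : s) : ContinuousOn (fun u => ui (rw2 b u) i) (UU b) := by
  unfold ui
  refine (cont_mL hodd hn b i).add (ContinuousOn.div_const (ContinuousOn.sub ?_ ?_) _)
  · refine continuousOn_const.mul ?_
    refine ContinuousOn.log ((Pool.Agent.Y714.KF.continuous_pm.comp
      (continuous_rw2 b)).continuousOn) ?_
    intro u hu
    exact (UU_pm hn b hu).ne'
  · exact continuousOn_finsetSum _ fun e _ => cont_LG hodd hn b e

theorem ccc : S_CCC K := by
  intro hodd hn b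
  exact ⟨fun j => cont_cc hodd hn b j, fun i => cont_ui hodd hn b i⟩

theorem cont_bf2 {F : Type} [Field F] [NumberField F] {ι : Type} [Fintype ι] [DecidableEq ι]
    {X : Type} [TopologicalSpace X] (b : Basis ι ℚ F) {f g : X → ι → ℝ} (hf : Continuous f)
    (hg : Continuous g) : Continuous fun u => bf b (f u) (g u) := by
  unfold bf
  refine continuous_finsetSum _ fun σ _ => ?_
  have h := Pool.Agent.Y714.KF.continuous_sg b σ
  have h1 : Continuous fun u : X => sg b σ (f u) := h.comp hf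
  have h2 : Continuous fun u : X => sg b σ (g u) := h.comp hg
  exact Complex.continuous_re.comp (h1.mul (Complex.continuous_conj.comp h2))

theorem cont_cmp {X : Type} [TopologicalSpace X] {f : X → (Ix K → ℝ)}
    (hf : Continuous f) (i : s) :
    Continuous fun u => (fun j => f u ⟨i, j⟩ : Fin (finrank ℚ (K i)) → ℝ) :=
  continuous_pi fun j => (continuous_apply (⟨i, j⟩ : Ix K)).comp hf

theorem cont_bfA {X : Type} [TopologicalSpace X] (b : Bs K) {f g : X → (Ix K → ℝ)}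
    (hf : Continuous f) (hg : Continuous g) : Continuous fun u => bfA b (f u) (g u) :=
  continuous_finsetSum _ fun i _ => cont_bf2 (b i) (cont_cmp hf i) (cont_cmp hg i)

theorem c_lf : Continuous fun u : Ix K ⊕ Ix K → ℝ => lf u :=
  continuous_pi fun _ => continuous_apply _

theorem c_rt : Continuous fun u : Ix K ⊕ Ix K → ℝ => rt u :=
  continuous_pi fun _ => continuous_apply _

theorem bfA_self_nonneg (b : Bs K) (x : Ix K → ℝ) : 0 ≤ bfA b x x :=
  sum_nonneg fun i _ => Pool.Agent.Y714.KF.bf_self_nonneg (b i) _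

theorem Dm_open (b : Bs K) (κ : Ux K → ℝ) (i₀ : s) (δ : ℝ)
    (h : ∀ j, ContinuousOn (fun u : Ix K ⊕ Ix K → ℝ => cc (rw2 b u) j) (UU b))
    (h' : ∀ i, ContinuousOn (fun u : Ix K ⊕ Ix K → ℝ => ui (rw2 b u) i) (UU b)) :
    IsOpen (Dm b κ i₀ δ) := by
  have hU := UU_open b
  have c11 : Continuous fun u : Ix K ⊕ Ix K → ℝ => bfA b (lf u) (lf u) := cont_bfA b c_lf c_lf
  have c12 : Continuous fun u : Ix K ⊕ Ix K → ℝ => bfA b (lf u) (rt u) := cont_bfA b c_lf c_rt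
  have c22 : Continuous fun u : Ix K ⊕ Ix K → ℝ => bfA b (rt u) (rt u) := cont_bfA b c_rt c_rt
  have cpm : Continuous fun u : Ix K ⊕ Ix K → ℝ => pm (rw2 b u) :=
    Pool.Agent.Y714.KF.continuous_pm.comp (continuous_rw2 b)
  have o1 : IsOpen {u : Ix K ⊕ Ix K → ℝ | δ ^ 2 < bfA b (lf u) (lf u)} :=
    isOpen_lt continuous_const c11
  have o2 : IsOpen {u : Ix K ⊕ Ix K → ℝ | bfA b (lf u) (lf u) < bfA b (rt u) (rt u)} :=
    isOpen_lt c11 c22
  have o3 : IsOpen {u : Ix K ⊕ Ix K → ℝ | 0 < bfA b (lf u) (rt u)} :=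
    isOpen_lt continuous_const c12
  have o4 : IsOpen {u : Ix K ⊕ Ix K → ℝ | 2 * bfA b (lf u) (rt u) < bfA b (lf u) (lf u)} :=
    isOpen_lt (continuous_const.mul c12) c11
  have o5 : IsOpen {u : Ix K ⊕ Ix K → ℝ | pm (rw2 b u) < 1} := isOpen_lt cpm continuous_const
  have o6 : IsOpen (UU b ∩ ⋂ j, UU b ∩
      (fun u => cc (rw2 b u) j) ⁻¹' (Set.Ioo (κ j) (κ j + 1))) := by
    refine hU.inter (isOpen_iInter_of_finite fun j => ?_)
    exact (h j).isOpen_inter_preimage hU isOpen_Ioo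
  have o7 : IsOpen (⋂ i, {u : Ix K ⊕ Ix K → ℝ | i ≠ i₀ → u ∈ UU b ∩
      (fun u => ui (rw2 b u) i) ⁻¹' (Set.Ioo 0 1)}) := by
    refine isOpen_iInter_of_finite fun i => ?_
    by_cases hi : i = i₀
    · simp [hi]
    · have e : {u : Ix K ⊕ Ix K → ℝ | i ≠ i₀ → u ∈ UU b ∩
          (fun u => ui (rw2 b u) i) ⁻¹' (Set.Ioo 0 1)} = UU b ∩
          (fun u => ui (rw2 b u) i) ⁻¹' (Set.Ioo 0 1) := by
        ext u
        exact ⟨fun h => h hi, fun h _ => h⟩
      rw [e]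
      exact (h' i).isOpen_inter_preimage hU isOpen_Ioo
  have o := (((o1.inter o2).inter o3).inter o4).inter (o5.inter (o6.inter o7))
  have hD : Dm b κ i₀ δ = ((({u : Ix K ⊕ Ix K → ℝ | δ ^ 2 < bfA b (lf u) (lf u)} ∩
      {u : Ix K ⊕ Ix K → ℝ | bfA b (lf u) (lf u) < bfA b (rt u) (rt u)}) ∩
      {u : Ix K ⊕ Ix K → ℝ | 0 < bfA b (lf u) (rt u)}) ∩
      {u : Ix K ⊕ Ix K → ℝ | 2 * bfA b (lf u) (rt u) < bfA b (lf u) (lf u)}) ∩
      ({u : Ix K ⊕ Ix K → ℝ | pm (rw2 b u) < 1} ∩ ((UU b ∩ ⋂ j, UU b ∩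
        (fun u => cc (rw2 b u) j) ⁻¹' (Set.Ioo (κ j) (κ j + 1))) ∩
        ⋂ i, {u : Ix K ⊕ Ix K → ℝ | i ≠ i₀ → u ∈ UU b ∩
          (fun u => ui (rw2 b u) i) ⁻¹' (Set.Ioo 0 1)})) := by
    ext u
    constructor
    · intro hu
      obtain ⟨u1, u2, u3, u4, u5, u6, u7, u8⟩ := hu
      exact ⟨⟨⟨⟨u1, u2⟩, u3⟩, u4⟩, u6, ⟨u5, Set.mem_iInter.2 fun j => ⟨u5, u7 j⟩⟩,
        Set.mem_iInter.2 fun i hi => ⟨u5, u8 i hi⟩⟩
    · intro hu
      obtain ⟨⟨⟨⟨u1, u2⟩, u3⟩, u4⟩, u6, ⟨u5, u7⟩, u8⟩ := hu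
      exact ⟨u1, u2, u3, u4, u5, u6, fun j => (Set.mem_iInter.1 u7 j).2,
        fun i hi => (Set.mem_iInter.1 u8 i hi).2⟩
  rw [hD]
  exact o

/-- the sizes are bounded on the closed region -/
theorem ui_le_one (hn : 3 ≤ dg K) (b : Bs K) {κ : Ux K → ℝ} {i₀ : s} {δ : ℝ}
    {u : Ix K ⊕ Ix K → ℝ} (hu : u ∈ Dc b κ i₀ δ) (i : s) : ui (rw2 b u) i ≤ 1 := by
  obtain ⟨h1, h2, h3, h4, h5, h6, h7, h8⟩ := hu
  by_cases hi : i = i₀
  · subst hi
    have hpm := UU_pm hn b (u := u) h5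
    have g3 := suu (K := K) (by omega) (rw2 b u)
    have g4 : Real.log (pm (rw2 b u)) ≤ 0 := Real.log_nonpos hpm.le h6
    rw [← add_sum_erase univ (fun j => (finrank ℚ (K j) : ℝ) * ui (rw2 b u) j) (mem_univ i)] at g3
    have g6 : 0 ≤ ∑ j ∈ univ.erase i, (finrank ℚ (K j) : ℝ) * ui (rw2 b u) j := by
      refine sum_nonneg fun j hj => ?_
      exact mul_nonneg (Nat.cast_nonneg _) (h8 j (ne_of_mem_erase hj)).1
    have g7 : (0 : ℝ) < finrank ℚ (K i) := by exact_mod_cast (finrank_pos : 0 < finrank ℚ (K i))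
    have g8 : (finrank ℚ (K i) : ℝ) * ui (rw2 b u) i ≤ 0 := by linarith
    nlinarith
  · exact (h8 i hi).2

/-- the estimate for one point -/
theorem Dc_bd (hodd : Odd (dg K)) (hn : 3 ≤ dg K) (b : Bs K) (κ : Ux K → ℝ) (i₀ : s) :
    ∃ E : ℝ, 0 ≤ E ∧ ∀ (δ : ℝ), ∀ u ∈ Dc b κ i₀ δ,
      bfA b (lf u) (lf u) * bfA b (rt u) (rt u) ≤ E := by
  obtain ⟨C, hC, hbr⟩ := brb (K := K) hodd (∑ j, |κ j| + 1)
  obtain ⟨D, hD⟩ : ∃ D, D = C * Real.exp 2 := ⟨_, rfl⟩
  have hD0 : 0 < D := by rw [hD]; exact mul_pos hC (Real.exp_pos _)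
  refine ⟨(dg K : ℝ) ^ 2 * D ^ 2, by positivity, fun δ u hu => ?_⟩
  have hui := ui_le_one hn b hu
  obtain ⟨h1, h2, h3, h4, h5, h6, h7, h8'⟩ := hu
  have hpm := UU_pm hn b (u := u) h5
  have h8 : ∀ e f : Em K, ‖br (rw2 b u e) (rw2 b u f)‖ ≤ D := by
    intro e f
    refine (hbr (rw2 b u) (SYM_rw2 b u) hpm (fun j => ?_) e f).trans ?_
    · have g3 : |κ j| ≤ ∑ j, |κ j| := single_le_sum (f := fun j => |κ j|)
        (fun _ _ => abs_nonneg _) (mem_univ j)
      obtain ⟨g4, g5⟩ := h7 j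
      rw [abs_le]
      constructor
      · linarith [neg_abs_le (κ j)]
      · linarith [le_abs_self (κ j)]
    · rw [hD]
      refine mul_le_mul_of_nonneg_left (Real.exp_le_exp.2 ?_) hC.le
      linarith [hui e.1, hui f.1]
  have h9 := lagrangeA b u
  have h10 : ∑ e : Em K, ∑ f : Em K, ‖br (rw2 b u e) (rw2 b u f)‖ ^ 2 ≤
      (dg K : ℝ) ^ 2 * D ^ 2 := by
    calc ∑ e : Em K, ∑ f : Em K, ‖br (rw2 b u e) (rw2 b u f)‖ ^ 2 ≤
        ∑ e : Em K, ∑ f : Em K, D ^ 2 :=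
          sum_le_sum fun e _ => sum_le_sum fun f _ => pow_le_pow_left₀ (norm_nonneg _) (h8 e f) 2
      _ = _ := by
          rw [sum_const, sum_const, card_univ, card_Em, nsmul_eq_mul, nsmul_eq_mul]
          ring
  have h11 : 2 * (bfA b (lf u) (lf u) * bfA b (rt u) (rt u) - bfA b (lf u) (rt u) ^ 2) ≤
      (dg K : ℝ) ^ 2 * D ^ 2 := by
    rw [h9]
    exact h10
  have hA0 : 0 ≤ bfA b (lf u) (lf u) := bfA_self_nonneg b _
  revert h11 hA0 h3 h4 h2
  generalize bfA b (lf u) (lf u) = A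
  generalize bfA b (rt u) (rt u) = B
  generalize bfA b (lf u) (rt u) = S
  intro h2 h3 h4 h11 hA0
  have g1 : 4 * S ^ 2 ≤ A * B := by nlinarith
  nlinarith

theorem Dc_bounded (hodd : Odd (dg K)) (hn : 3 ≤ dg K) (b : Bs K) (κ : Ux K → ℝ) (i₀ : s)
    (δ : ℝ) (hδ : 0 < δ) : Bornology.IsBounded (Dc b κ i₀ δ) := by
  obtain ⟨E0, hE00, hE1⟩ := Dc_bd hodd hn b κ i₀
  obtain ⟨c, C2, hc, hC2, hbf⟩ := exists_bfA_bound b
  rw [isBounded_iff_forall_norm_le]
  obtain ⟨E, hE⟩ : ∃ E, E = E0 / δ ^ 2 := ⟨_, rfl⟩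
  have hE0 : 0 ≤ E := by rw [hE]; positivity
  refine ⟨Real.sqrt (E / c), fun u hu => ?_⟩
  have hAB := hE1 δ u hu
  have h1 := hu.1
  have h2 := hu.2.1
  have hA0 : 0 ≤ bfA b (lf u) (lf u) := bfA_self_nonneg b _
  have g3 : bfA b (rt u) (rt u) ≤ E := by
    rw [hE, le_div_iff₀ (by positivity)]
    have := mul_le_mul_of_nonneg_left h1 (hA0.trans h2)
    linarith
  have hx : ‖lf u‖ ≤ Real.sqrt (E / c) := by
    apply Real.le_sqrt_of_sq_le
    rw [le_div_iff₀ hc]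
    have := (hbf (lf u)).1
    linarith
  have hy : ‖rt u‖ ≤ Real.sqrt (E / c) := by
    apply Real.le_sqrt_of_sq_le
    rw [le_div_iff₀ hc]
    have := (hbf (rt u)).1
    linarith
  rw [pi_norm_le_iff_of_nonneg (Real.sqrt_nonneg _)]
  rintro (i | i)
  · exact (norm_le_pi_norm (lf u) i).trans hx
  · exact (norm_le_pi_norm (rt u) i).trans hy

theorem opb (h : S_CCC K) : S_OPB K := by
  intro hodd hn b κ i₀ δ hδ
  exact ⟨Dm_open b κ i₀ δ (fun j => (h hodd hn b).1 j) (fun i => (h hodd hn b).2 i),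
    Dc_bounded hodd hn b κ i₀ δ hδ⟩

end Pool.Agent.Y37.KE
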